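import Pool.Agent.H73.GMS.Stmts

/-! Row EXM of board gms (MP_213ba5): every good set lies in a maximal one. -/

set_option autoImplicit false

namespace GMS

/-- **EXM** -/
theorem exm_thm (α : Type*) : EXMStmt α := by
  intro Good hF S hS
  obtain ⟨_, hmono, hfin⟩ := hF
  have hchar : Order.IsOfFiniteCharacter {T : Set α | Good T} := by
    intro T
    constructor
    · intro hT U hU _
      exact hmono U T hU hT
    · intro h
      exact hfin T fun U hU hUf => h U hU hUf
  obtain ⟨N, hSN, hN⟩ := hchar.exists_maximal (x := S) hS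
  refine ⟨N, ⟨hN.prop, fun T hT hNT => ?_⟩, hSN⟩
  exact (hN.eq_of_subset hT hNT).symm

end GMS
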